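import Mathlib

/-!
# NCU: definitions

`M` is a Coxeter matrix on `S`, `cs : CoxeterSystem M W`, `W` finite; `G` is a group with elements
`σ s`, `s : S` (later: the braid group), `lift : W → G` the positive lift.
-/

set_option autoImplicit false

namespace H42.NU

open LaurentPolynomial

universe u v w

/-- the letter number `n` of the alternating word `s, s', s, s', ...` -/
def lt {S : Type u} (s s' : S) (n : ℕ) : S := if n % 2 = 0 then s else s'

/-- the product of the first `n` letters of the alternating word `s, s', s, s', ...` -/
def pr {S : Type u} {G : Type w} [Monoid G] (f : S → G) (s s' : S) : ℕ → G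
  | 0 => 1
  | n + 1 => pr f s s' n * f (lt s s' n)

/-- the relations of the braid group -/
def brel {S : Type u} (M : CoxeterMatrix S) : Set (FreeGroup S) :=
  {r | ∃ s s' : S, r = pr FreeGroup.of s s' (M s s') * (pr FreeGroup.of s' s (M s s'))⁻¹}

/-- the braid group -/
abbrev BG {S : Type u} (M : CoxeterMatrix S) := PresentedGroup (brel M)

/-- the generators of the braid group -/
def bgen {S : Type u} (M : CoxeterMatrix S) (s : S) : BG M := PresentedGroup.of s

end H42.NU
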